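import Pool.Agent.Helper24.QD.Stmts

set_option autoImplicit false

/-! `VAB1`: free abelian data of a finitely generated group with an abelian subgroup of
finite index. -/

namespace Pool.Agent.Helper63.QD

open _root_.QD

theorem zb_prod {G : Type} [Group G] (g : G) (k : ℤ) : (zb g k).prod = g ^ k := by
  unfold zb
  split_ifs with h
  · rw [List.prod_replicate]
    obtain ⟨n, rfl⟩ := Int.eq_ofNat_of_zero_le h
    simp
  · rw [List.prod_replicate]
    push Not at h
    obtain ⟨n, hn⟩ := Int.eq_ofNat_of_zero_le (show 0 ≤ -k by omega)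
    have hk : k = -(n : ℤ) := by omega
    subst hk
    simp

theorem nf_prod {G J : Type} [Group G] (z : J → G) (js : List J) (k : J → ℤ) :
    (nf z js k).prod = (js.map fun j => z j ^ k j).prod := by
  unfold nf
  rw [List.prod_flatten, List.map_map]
  congr 1
  refine List.map_congr_left fun j _ => ?_
  exact zb_prod (z j) (k j)

theorem VAB1 : ST_VAB1 := by
  intro L _ hfg A hA hcomm
  haveI := hfg
  haveI := hA
  haveI hAfg : Group.FG A := inferInstance
  letI cA : CommGroup A :=
    { (inferInstance : Group A) with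
      mul_comm := fun x y => Subtype.ext (hcomm x.1 x.2 y.1 y.2) }
  haveI hAfg' : @Group.FG A cA.toGroup := hAfg
  obtain ⟨ι, j, fι, fj, p, hp, e, ⟨E⟩⟩ :=
    CommGroup.equiv_free_prod_prod_multiplicative_zmod A
  classical
  haveI : ∀ i, NeZero (p i ^ e i) := fun i => ⟨pow_ne_zero _ (hp i).ne_zero⟩
  haveI : ∀ i, Finite (Multiplicative (ZMod (p i ^ e i))) := fun i =>
    inferInstanceAs (Finite (ZMod (p i ^ e i)))
  haveI : Finite (L ⧸ A) := inferInstance
  let σ : Fin (Fintype.card j) ≃ j := (Fintype.equivFin j).symm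
  let zA : Fin (Fintype.card j) → A := fun i =>
    E.symm (Pi.mulSingle (σ i) (Multiplicative.ofAdd 1), 1)
  have hP : ∀ k : Fin (Fintype.card j) → ℤ,
      E (((List.finRange (Fintype.card j)).map fun i => zA i ^ k i).prod) =
        (fun i => Multiplicative.ofAdd (k (σ.symm i)), 1) := by
    intro k
    rw [← Fin.prod_univ_def, map_prod]
    have h1 : ∀ i, E (zA i ^ k i) =
        (Pi.mulSingle (σ i) (Multiplicative.ofAdd (k i)), 1) := by
      intro i
      rw [map_zpow]
      show (E (E.symm _)) ^ k i = _
      rw [E.apply_symm_apply]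
      refine Prod.ext ?_ ?_
      · show (Pi.mulSingle (σ i) (Multiplicative.ofAdd (1 : ℤ)) : j → Multiplicative ℤ) ^ k i = _
        rw [← Pi.mulSingle_zpow, ← ofAdd_zsmul, smul_eq_mul, mul_one]
      · show (1 : (i : ι) → Multiplicative (ZMod (p i ^ e i))) ^ k i = 1
        exact one_zpow _
    rw [Finset.prod_congr rfl (fun i _ => h1 i)]
    refine Prod.ext ?_ ?_
    · rw [Prod.fst_prod]
      funext a
      rw [Finset.prod_apply]
      show ∏ i, (Pi.mulSingle (σ i) (Multiplicative.ofAdd (k i)) : j → Multiplicative ℤ) a = _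
      rw [Finset.prod_eq_single (σ.symm a)]
      · rw [Equiv.apply_symm_apply, Pi.mulSingle_eq_same]
      · intro b _ hb
        refine Pi.mulSingle_eq_of_ne (fun h => hb ?_) _
        rw [h, Equiv.symm_apply_apply]
      · intro h
        exact absurd (Finset.mem_univ _) h
    · rw [Prod.snd_prod]
      exact Finset.prod_eq_one fun i _ => rfl
  have hN : ∀ k : Fin (Fintype.card j) → ℤ,
      (nf (fun i => (zA i : L)) (List.finRange (Fintype.card j)) k).prod =
        (((List.finRange (Fintype.card j)).map fun i => zA i ^ k i).prod : A) := by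
    intro k
    rw [nf_prod, ← Subgroup.coe_subtype, map_list_prod, List.map_map]
    rfl
  refine ⟨Fintype.card j, fun i => (zA i : L),
    (Set.finite_range (fun x : ((i : ι) → Multiplicative (ZMod (p i ^ e i))) × (L ⧸ A) =>
      ((E.symm (1, x.1) : A) : L) * (Quotient.out x.2)⁻¹)).toFinset, ?_, ?_, ?_⟩
  · intro i i'
    exact hcomm _ (zA i).2 _ (zA i').2
  · intro l
    obtain ⟨h, hh⟩ := QuotientGroup.mk_out_eq_mul A l⁻¹
    refine ⟨fun i => Multiplicative.toAdd ((E h).1 (σ i)),
      ((E.symm (1, (E h).2) : A) : L) * (Quotient.out ((l⁻¹ : L) : L ⧸ A))⁻¹, ?_, ?_⟩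
    · rw [Set.Finite.mem_toFinset]
      exact ⟨((E h).2, ((l⁻¹ : L) : L ⧸ A)), rfl⟩
    · rw [hN, ← mul_assoc, ← Subgroup.coe_mul]
      have h2 : ((List.finRange (Fintype.card j)).map
          fun i => zA i ^ Multiplicative.toAdd ((E h).1 (σ i))).prod * E.symm (1, (E h).2) = h := by
        apply E.injective
        rw [map_mul, hP, E.apply_symm_apply]
        refine Prod.ext ?_ ?_
        · funext a
          show Multiplicative.ofAdd (Multiplicative.toAdd ((E h).1 (σ (σ.symm a)))) * 1 = _
          rw [Equiv.apply_symm_apply, mul_one, ofAdd_toAdd]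
        · show 1 * (E h).2 = (E h).2
          exact one_mul _
      rw [h2, hh]
      group
  · intro k hk
    rw [hN] at hk
    have h3 : ((List.finRange (Fintype.card j)).map fun i => zA i ^ k i).prod = 1 :=
      Subtype.ext hk
    have h4 := hP k
    rw [h3, map_one] at h4
    funext i
    have h5 := congrFun (congrArg Prod.fst h4) (σ i)
    have h6 : Multiplicative.ofAdd (k (σ.symm (σ i))) = 1 := h5.symm
    rw [Equiv.symm_apply_apply] at h6
    exact ofAdd_eq_one.mp h6

end Pool.Agent.Helper63.QD
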