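import Pool.Agent.Helper42.QD.Stmts

/-!
qd_mods FP1: mean square of the twisted traces (Parseval).
-/

set_option autoImplicit false

namespace Pool.Agent.Helper42.QD

open Finset

theorem fp1_parseval {E : Type} [Field E] [Fintype E] [DecidableEq E] (psi : AddChar E ℂ)
    (h : psi ≠ 1) (C : Eˣ → ℂ) :
    ∑ b : E, ‖∑ y : Eˣ, psi (y * b) * C y‖ ^ 2 = (Fintype.card E : ℝ) * ∑ y : Eˣ, ‖C y‖ ^ 2 := by
  have hp : psi.IsPrimitive := AddChar.IsPrimitive.of_ne_one h
  have key : (∑ b : E, (‖∑ y : Eˣ, psi (y * b) * C y‖ : ℂ) ^ 2) =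
      (Fintype.card E : ℂ) * ∑ y : Eˣ, (‖C y‖ : ℂ) ^ 2 := by
    calc (∑ b : E, (‖∑ y : Eˣ, psi (y * b) * C y‖ : ℂ) ^ 2)
        = ∑ b : E, ∑ y : Eˣ, ∑ y' : Eˣ, (C y * (starRingEnd ℂ) (C y')) * psi (b * (y - y')) := by
          refine sum_congr rfl fun b _ => ?_
          rw [← Complex.mul_conj', map_sum, Finset.sum_mul_sum]
          refine sum_congr rfl fun y _ => sum_congr rfl fun y' _ => ?_
          have e : psi (b * ((y : E) - y')) = psi (y * b) * (starRingEnd ℂ) (psi (y' * b)) := by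
            rw [← AddChar.map_neg_eq_conj, ← AddChar.map_add_eq_mul]
            congr 1
            ring
          rw [e, map_mul (starRingEnd ℂ) (psi (y' * b)) (C y')]
          ring
      _ = ∑ y : Eˣ, ∑ y' : Eˣ, (C y * (starRingEnd ℂ) (C y')) * ∑ b : E, psi (b * (y - y')) := by
          rw [sum_comm]
          refine sum_congr rfl fun y _ => ?_
          rw [sum_comm]
          refine sum_congr rfl fun y' _ => ?_
          rw [mul_sum]
      _ = ∑ y : Eˣ, (Fintype.card E : ℂ) * (‖C y‖ : ℂ) ^ 2 := by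
          refine sum_congr rfl fun y _ => ?_
          rw [Finset.sum_eq_single y]
          · rw [AddChar.sum_mulShift _ hp, if_pos (sub_self _), Complex.mul_conj']
            ring
          · intro y' _ hne
            rw [AddChar.sum_mulShift _ hp, if_neg, Nat.cast_zero, mul_zero]
            intro h0
            exact hne (Units.ext (sub_eq_zero.1 h0).symm)
          · intro h0
            exact absurd (mem_univ y) h0
      _ = _ := by rw [mul_sum]
  have k2 : ((∑ b : E, ‖∑ y : Eˣ, psi (y * b) * C y‖ ^ 2 : ℝ) : ℂ) =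
      (((Fintype.card E : ℝ) * ∑ y : Eˣ, ‖C y‖ ^ 2 : ℝ) : ℂ) := by
    push_cast
    exact key
  exact_mod_cast k2

theorem st_FP1 : ST_FP1 := by
  intro E _ _ _ c j hj hom
  have h1 : ∀ t : Eˣ, ∑ b : E, ‖TT c j b t‖ ^ 2 =
      (Fintype.card E : ℝ) * ∑ y : Eˣ, ‖j (y * tu c.tau y * t)‖ ^ 2 := by
    intro t
    have h2 := fp1_parseval c.psi c.psin (fun y => j (y * tu c.tau y * t) * ((c.om y : ℂ))⁻¹)
    have h3 : ∀ b : E, TT c j b t =
        ∑ y : Eˣ, c.psi (y * b) * (j (y * tu c.tau y * t) * ((c.om y : ℂ))⁻¹) := by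
      intro b
      unfold TT
      exact sum_congr rfl fun y _ => by ring
    rw [sum_congr rfl fun b _ => by rw [h3 b], h2]
    congr 1
    refine sum_congr rfl fun y _ => ?_
    rw [norm_mul, norm_inv, hom y, inv_one, mul_one]
  have h4 : ∀ x : Eˣ, ∑ t : Eˣ, ‖j (x * t)‖ ^ 2 = (1 : ℝ) := by
    intro x
    have h5 := hj x x
    rw [if_pos rfl] at h5
    have h6 : ((∑ t : Eˣ, ‖j (x * t)‖ ^ 2 : ℝ) : ℂ) = ((1 : ℝ) : ℂ) := by
      push_cast
      rw [← h5]
      exact sum_congr rfl fun t _ => (Complex.mul_conj' _).symm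
    exact_mod_cast h6
  rw [sum_congr rfl fun t _ => h1 t, ← mul_sum, sum_comm, sum_congr rfl fun y _ => h4 (y * tu c.tau y)]
  simp

end Pool.Agent.Helper42.QD
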