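import Pool.Agent.Helper58.CP.Stmts

/-! # Row CRIT: the critical point of the energy -/

namespace QD63

open CP Finset Classical

noncomputable section

variable {D V F : Type} [Fintype D] [Fintype V] [Fintype F]

theorem vt_face' (m : LM D V F) (d : D) : m.vt (m.face d) = m.vt (m.opp d) := m.vt_rot _

theorem fc_face' (m : LM D V F) (d : D) : m.fc (m.face d) = m.fc d := m.fc_face d

theorem sum_face (m : LM D V F) (f : D → ℝ) : ∑ d, f (m.face d) = ∑ d, f d :=
  Equiv.sum_comp m.face f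

theorem card_fc (m : LM D V F) (hT : m.Tri) (φ : F) :
    (univ.filter (fun d => m.fc d = φ)).card = 3 := by
  obtain ⟨d, hd⟩ := m.fc_surj φ
  subst hd
  have h1 : ∀ e, m.face e ≠ e := by
    intro e he
    apply hT.noloop e
    rw [← vt_face', he]
  have h2 : m.face (m.face d) ≠ d := by
    intro h
    have h3 := hT.f3 d
    rw [h] at h3
    exact h1 d h3
  rw [Finset.card_eq_three]
  refine ⟨d, m.face d, m.face (m.face d), (h1 d).symm, h2.symm, (h1 _).symm, ?_⟩
  ext e
  simp only [Finset.mem_filter, Finset.mem_univ, true_and, Finset.mem_insert,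
    Finset.mem_singleton]
  constructor
  · intro h
    exact hT.fib d e h
  · rintro (rfl | rfl | rfl)
    · rfl
    · rw [fc_face']
    · rw [fc_face', fc_face']

theorem scal (a b c w N : ℝ) (ha : |a| ≤ N) (hb : |b| ≤ N) (hc : |c| ≤ N) :
    a + b + c - 2 * min a (min b c) + 2 * max (|w| - N) 0
      ≤ |a - w| + |b - w| + |c - w| + w := by
  rw [abs_le] at ha hb hc
  have a1 := le_abs_self (a - w)
  have a2 := neg_abs_le (a - w)
  have b1 := le_abs_self (b - w)
  have b2 := neg_abs_le (b - w)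
  have c1 := le_abs_self (c - w)
  have c2 := neg_abs_le (c - w)
  rcases min_cases a (min b c) with ⟨h1, h2⟩ | ⟨h1, h2⟩ <;>
  rcases min_cases b c with ⟨h3, h4⟩ | ⟨h3, h4⟩ <;>
  rcases max_cases (|w| - N) 0 with ⟨h5, h6⟩ | ⟨h5, h6⟩ <;>
  rcases abs_cases w with ⟨h7, h8⟩ | ⟨h7, h8⟩ <;>
  rw [h1, h5] <;> linarith

/-- the energy -/
def En (m : LM D V F) (G : ℝ → ℝ) (u : V → ℝ) (w : F → ℝ) : ℝ :=
  ∑ d, (G (u (m.vt d) - w (m.fc d)) + Real.pi / 12 * w (m.fc d))
    + ∑ v, (Real.pi - Real.pi / 4 * (m.dg v : ℝ)) * u v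

theorem sum_dg (m : LM D V F) (u : V → ℝ) :
    ∑ d, u (m.vt d) = ∑ v, (m.dg v : ℝ) * u v := by
  rw [← Finset.sum_fiberwise univ m.vt (fun d => u (m.vt d))]
  refine Finset.sum_congr rfl fun v _ => ?_
  rw [Finset.sum_congr rfl (g := fun _ => u v), Finset.sum_const, nsmul_eq_mul]
  · rfl
  · intro d hd
    rw [(Finset.mem_filter.1 hd).2]

theorem bound (hLEV : ST_LEV) (m : LM D V F) (o : D) (hT : m.Tri) (G : ℝ → ℝ)
    (hG : ∀ s, Real.pi / 4 * |s| - 1 ≤ G s) (u : V → ℝ) (w : F → ℝ)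
    (hu : ∀ v, m.outer o v → u v = 0) (v0 : V) :
    Real.pi / 2 * |u v0| + Real.pi / 6 * ∑ d, max (|w (m.fc d)| - ‖u‖) 0
      ≤ En m G u w + Fintype.card D := by
  have hpi := Real.pi_pos
  have hN : ∀ v, |u v| ≤ ‖u‖ := fun v => norm_le_pi_norm u v
  have hl := hLEV D V F m o hT u hu v0
  -- sums
  have hS1 : ∑ d, |u (m.v1 d) - w (m.fc d)| = ∑ d, |u (m.vt d) - w (m.fc d)| := by
    rw [← sum_face m (fun d => |u (m.vt d) - w (m.fc d)|)]
    refine Finset.sum_congr rfl fun d _ => ?_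
    rw [fc_face']; rfl
  have hS2 : ∑ d, |u (m.v2 d) - w (m.fc d)| = ∑ d, |u (m.vt d) - w (m.fc d)| := by
    rw [← hS1, ← sum_face m (fun d => |u (m.v1 d) - w (m.fc d)|)]
    refine Finset.sum_congr rfl fun d _ => ?_
    rw [fc_face']; rfl
  have hS3 : ∑ d, u (m.v1 d) = ∑ d, u (m.vt d) := by
    rw [← sum_face m (fun d => u (m.vt d))]
    rfl
  have hS4 : ∑ d, u (m.v2 d) = ∑ d, u (m.vt d) := by
    rw [← hS3, ← sum_face m (fun d => u (m.v1 d))]
    rfl
  have hsum : ∑ d, (u (m.vt d) + u (m.v1 d) + u (m.v2 d)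
      - 2 * min (u (m.vt d)) (min (u (m.v1 d)) (u (m.v2 d))) + 2 * max (|w (m.fc d)| - ‖u‖) 0)
      ≤ ∑ d, (|u (m.vt d) - w (m.fc d)| + |u (m.v1 d) - w (m.fc d)| + |u (m.v2 d) - w (m.fc d)|
        + w (m.fc d)) :=
    Finset.sum_le_sum fun d _ => scal _ _ _ _ _ (hN _) (hN _) (hN _)
  simp only [Finset.sum_add_distrib, Finset.sum_sub_distrib, ← Finset.mul_sum] at hsum
  rw [hS1, hS2, hS3, hS4] at hsum
  have hE : ∑ d, (Real.pi / 4 * |u (m.vt d) - w (m.fc d)| - 1 + Real.pi / 12 * w (m.fc d))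
      ≤ ∑ d, (G (u (m.vt d) - w (m.fc d)) + Real.pi / 12 * w (m.fc d)) :=
    Finset.sum_le_sum fun d _ => by
      have := hG (u (m.vt d) - w (m.fc d))
      linarith
  simp only [Finset.sum_add_distrib, Finset.sum_sub_distrib, ← Finset.mul_sum] at hE
  have hc : ∑ _d : D, (1 : ℝ) = Fintype.card D := by simp
  rw [hc] at hE
  have hv : ∑ v, (Real.pi - Real.pi / 4 * (m.dg v : ℝ)) * u v
      = Real.pi * ∑ v, u v - Real.pi / 4 * ∑ d, u (m.vt d) := by
    rw [sum_dg, Finset.mul_sum, Finset.mul_sum, ← Finset.sum_sub_distrib]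
    refine Finset.sum_congr rfl fun v _ => ?_
    ring
  have hEn : En m G u w = ∑ d, G (u (m.vt d) - w (m.fc d)) + Real.pi / 12 * ∑ d, w (m.fc d)
      + (Real.pi * ∑ v, u v - Real.pi / 4 * ∑ d, u (m.vt d)) := by
    rw [En, hv, Finset.sum_add_distrib, ← Finset.mul_sum]
  rw [hEn]
  have h1 := mul_le_mul_of_nonneg_left hsum (show (0 : ℝ) ≤ Real.pi / 12 by positivity)
  have h2 := mul_le_mul_of_nonneg_left hl (show (0 : ℝ) ≤ Real.pi / 6 by positivity)
  nlinarith [h1, h2, hE]

theorem norm_bound (hLEV : ST_LEV) (m : LM D V F) (o : D) (hT : m.Tri) (G : ℝ → ℝ)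
    (hG : ∀ s, Real.pi / 4 * |s| - 1 ≤ G s) (x : (V → ℝ) × (F → ℝ))
    (hu : ∀ v, m.outer o v → x.1 v = 0) :
    Real.pi / 6 * ‖x‖ ≤ En m G x.1 x.2 + Fintype.card D := by
  have hpi := Real.pi_pos
  obtain ⟨u, w⟩ := x
  have hb := bound hLEV m o hT G hG u w hu
  have : Nonempty V := ⟨m.vt o⟩
  have : Nonempty F := ⟨m.fc o⟩
  set S := ∑ d, max (|w (m.fc d)| - ‖u‖) 0 with hS
  have hS0 : 0 ≤ S := Finset.sum_nonneg fun d _ => le_max_right _ _
  have hu1 : Real.pi / 2 * ‖u‖ + Real.pi / 6 * S ≤ En m G u w + Fintype.card D := by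
    have h1 : ‖u‖ ≤ (En m G u w + Fintype.card D - Real.pi / 6 * S) * (2 / Real.pi) := by
      rw [pi_norm_le_iff_of_nonempty]
      intro v
      rw [Real.norm_eq_abs]
      have h2 := hb v
      have h3 : |u v| = (Real.pi / 2 * |u v|) * (2 / Real.pi) := by
        field_simp
      rw [h3]
      refine mul_le_mul_of_nonneg_right ?_ (by positivity)
      linarith
    have h4 := mul_le_mul_of_nonneg_left h1 (show (0 : ℝ) ≤ Real.pi / 2 by positivity)
    have h5 : Real.pi / 2 * ((En m G u w + Fintype.card D - Real.pi / 6 * S) * (2 / Real.pi))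
        = En m G u w + Fintype.card D - Real.pi / 6 * S := by
      field_simp
    rw [h5] at h4
    linarith
  have hw1 : ‖w‖ ≤ ‖u‖ + S := by
    rw [pi_norm_le_iff_of_nonempty]
    intro φ
    rw [Real.norm_eq_abs]
    obtain ⟨d, hd⟩ := m.fc_surj φ
    have h1 : |w φ| - ‖u‖ ≤ max (|w (m.fc d)| - ‖u‖) 0 := by
      rw [hd]
      exact le_max_left _ _
    have h2 : max (|w (m.fc d)| - ‖u‖) 0 ≤ S :=
      Finset.single_le_sum (f := fun d => max (|w (m.fc d)| - ‖u‖) 0)
        (fun d _ => le_max_right _ _) (Finset.mem_univ d)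
    linarith
  have hu0 : 0 ≤ ‖u‖ := norm_nonneg u
  have hx : ‖((u, w) : (V → ℝ) × (F → ℝ))‖ ≤ ‖u‖ + S := by
    rw [Prod.norm_def]
    exact max_le (by change ‖u‖ ≤ _; linarith) hw1
  have h6 := mul_le_mul_of_nonneg_left hx (show (0 : ℝ) ≤ Real.pi / 6 by positivity)
  change Real.pi / 6 * ‖((u, w) : (V → ℝ) × (F → ℝ))‖ ≤ En m G u w + Fintype.card D
  nlinarith [h6, hu1, mul_nonneg hpi.le hu0]

theorem exists_min (hLEV : ST_LEV) (m : LM D V F) (o : D) (hT : m.Tri) (G : ℝ → ℝ)
    (hG : ∀ s, Real.pi / 4 * |s| - 1 ≤ G s) (hGc : Continuous G) :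
    ∃ (u : V → ℝ) (w : F → ℝ), (∀ v, m.outer o v → u v = 0) ∧
      ∀ (u' : V → ℝ) (w' : F → ℝ), (∀ v, m.outer o v → u' v = 0) →
        En m G u w ≤ En m G u' w' := by
  have hpi := Real.pi_pos
  set C : Set ((V → ℝ) × (F → ℝ)) := {x | ∀ v, m.outer o v → x.1 v = 0} with hC
  have hCc : IsClosed C := by
    have : C = ⋂ v, ⋂ (_ : m.outer o v), {x | x.1 v = 0} := by
      ext x
      simp [hC]
    rw [this]
    refine isClosed_iInter fun v => isClosed_iInter fun _ => ?_
    exact isClosed_eq (by fun_prop) continuous_const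
  have hEc : Continuous (fun x : (V → ℝ) × (F → ℝ) => En m G x.1 x.2) := by
    unfold En
    fun_prop
  have h0 : (0 : (V → ℝ) × (F → ℝ)) ∈ C := by
    intro v _
    rfl
  set ρ : ℝ := (En m G 0 0 + Fintype.card D) * (6 / Real.pi) with hρ
  have hb0 := norm_bound hLEV m o hT G hG 0 h0
  have hb0' : 0 ≤ En m G 0 0 + Fintype.card D := by
    have : Real.pi / 6 * ‖(0 : (V → ℝ) × (F → ℝ))‖ = 0 := by
      rw [norm_zero, mul_zero]
    rw [this] at hb0
    exact hb0
  have hρ0 : 0 ≤ ρ := by positivity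
  have hK : IsCompact (C ∩ Metric.closedBall 0 ρ) :=
    (isCompact_closedBall 0 ρ).inter_left hCc
  obtain ⟨x, hxK, hx⟩ := hK.exists_isMinOn ⟨0, h0, Metric.mem_closedBall_self hρ0⟩
    hEc.continuousOn
  refine ⟨x.1, x.2, hxK.1, fun u' w' h' => ?_⟩
  have h1 : En m G x.1 x.2 ≤ En m G 0 0 := hx ⟨h0, Metric.mem_closedBall_self hρ0⟩
  by_cases hy : ‖((u', w') : (V → ℝ) × (F → ℝ))‖ ≤ ρ
  · exact hx (show ((u', w') : (V → ℝ) × (F → ℝ)) ∈ C ∩ Metric.closedBall 0 ρ from
      ⟨h', by rw [mem_closedBall_zero_iff]; exact hy⟩)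
  · rw [not_le] at hy
    have h2 := norm_bound hLEV m o hT G hG (u', w') h'
    have h3 : Real.pi / 6 * ρ = En m G 0 0 + Fintype.card D := by
      rw [hρ]
      field_simp
    have h4 := mul_le_mul_of_nonneg_left hy.le (show (0 : ℝ) ≤ Real.pi / 6 by positivity)
    change Real.pi / 6 * ‖((u', w') : (V → ℝ) × (F → ℝ))‖ ≤ En m G u' w' + Fintype.card D at h2
    linarith

theorem st_CRIT (hLEV : ST_LEV) (hGF : ST_GF) : ST_CRIT := by
  intro D V F _ _ _ m o hT
  obtain ⟨G, hGd, hG⟩ := hGF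
  have hGc : Continuous G := continuous_iff_continuousAt.2 fun s => (hGd s).continuousAt
  obtain ⟨u, w, hu, hmin⟩ := exists_min hLEV m o hT G hG hGc
  refine ⟨u, w, hu, ?_, ?_⟩
  · intro φ
    set c : D → ℝ := fun d => if m.fc d = φ then 1 else 0 with hc
    have hf : ∀ s : ℝ, En m G u (w + s • Pi.single φ 1)
        = ∑ d, (G (u (m.vt d) - (w (m.fc d) + s * c d)) + Real.pi / 12 * (w (m.fc d) + s * c d))
          + ∑ v, (Real.pi - Real.pi / 4 * (m.dg v : ℝ)) * u v := by
      intro s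
      unfold En
      have : ∀ d, (w + s • Pi.single φ (1 : ℝ) : F → ℝ) (m.fc d) = w (m.fc d) + s * c d := by
        intro d
        rw [Pi.add_apply, Pi.smul_apply, smul_eq_mul, Pi.single_apply]
      simp only [this]
    have hd : HasDerivAt (fun s : ℝ => En m G u (w + s • Pi.single φ 1))
        (∑ d, ((Real.arctan (Real.exp (u (m.vt d) - (w (m.fc d) + 0 * c d))) - Real.pi / 4)
          * (-(1 * c d)) + Real.pi / 12 * (1 * c d))) 0 := by
      have e : (fun s : ℝ => En m G u (w + s • Pi.single φ 1))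
          = fun s : ℝ => ∑ d, (G (u (m.vt d) - (w (m.fc d) + s * c d))
              + Real.pi / 12 * (w (m.fc d) + s * c d))
            + ∑ v, (Real.pi - Real.pi / 4 * (m.dg v : ℝ)) * u v := funext hf
      rw [e]
      refine HasDerivAt.add_const _ ?_
      refine HasDerivAt.fun_sum fun d _ => ?_
      have h1 : HasDerivAt (fun s : ℝ => w (m.fc d) + s * c d) (1 * c d) 0 :=
        ((hasDerivAt_id (0 : ℝ)).mul_const (c d)).const_add _
      have h2 : HasDerivAt (fun s : ℝ => u (m.vt d) - (w (m.fc d) + s * c d)) (-(1 * c d)) 0 :=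
        h1.const_sub _
      have h3 : HasDerivAt (fun s : ℝ => G (u (m.vt d) - (w (m.fc d) + s * c d)))
          ((Real.arctan (Real.exp (u (m.vt d) - (w (m.fc d) + 0 * c d))) - Real.pi / 4)
            * (-(1 * c d))) 0 :=
        HasDerivAt.comp (0 : ℝ) (hGd _) h2
      exact h3.add (h1.const_mul _)
    have hloc : IsLocalMin (fun s : ℝ => En m G u (w + s • Pi.single φ 1)) 0 := by
      refine Filter.Eventually.of_forall fun s => ?_
      have h1 : En m G u (w + (0 : ℝ) • Pi.single φ 1) = En m G u w := by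
        rw [zero_smul, add_zero]
      change En m G u (w + (0 : ℝ) • Pi.single φ 1) ≤ En m G u (w + s • Pi.single φ 1)
      rw [h1]
      exact hmin _ _ hu
    have h0 := hloc.hasDerivAt_eq_zero hd
    have h1 : ∑ d, ((Real.arctan (Real.exp (u (m.vt d) - (w (m.fc d) + 0 * c d))) - Real.pi / 4)
          * (-(1 * c d)) + Real.pi / 12 * (1 * c d))
        = ∑ d with m.fc d = φ,
          (Real.pi / 3 - Real.arctan (Real.exp (u (m.vt d) - w φ))) := by
      rw [Finset.sum_filter]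
      refine Finset.sum_congr rfl fun d _ => ?_
      simp only [hc]
      split_ifs with h
      · rw [h, zero_mul, add_zero]
        ring
      · ring
    rw [h1, Finset.sum_sub_distrib, Finset.sum_const, card_fc m hT φ, nsmul_eq_mul] at h0
    push_cast at h0
    linarith
  · intro v hv
    set c : D → ℝ := fun d => if m.vt d = v then 1 else 0 with hc
    have hf : ∀ s : ℝ, En m G (u + s • Pi.single v 1) w
        = ∑ d, (G (u (m.vt d) + s * c d - w (m.fc d)) + Real.pi / 12 * w (m.fc d))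
          + (∑ v', (Real.pi - Real.pi / 4 * (m.dg v' : ℝ)) * u v'
            + s * (Real.pi - Real.pi / 4 * (m.dg v : ℝ))) := by
      intro s
      unfold En
      have h1 : ∀ d, (u + s • Pi.single v (1 : ℝ) : V → ℝ) (m.vt d) = u (m.vt d) + s * c d := by
        intro d
        rw [Pi.add_apply, Pi.smul_apply, smul_eq_mul, Pi.single_apply]
      have h2 : ∑ v', (Real.pi - Real.pi / 4 * (m.dg v' : ℝ)) * (u + s • Pi.single v (1 : ℝ) : V → ℝ) v'
          = ∑ v', (Real.pi - Real.pi / 4 * (m.dg v' : ℝ)) * u v'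
            + s * (Real.pi - Real.pi / 4 * (m.dg v : ℝ)) := by
        have h3 : ∀ v', (Real.pi - Real.pi / 4 * (m.dg v' : ℝ)) * (u + s • Pi.single v (1 : ℝ) : V → ℝ) v'
            = (Real.pi - Real.pi / 4 * (m.dg v' : ℝ)) * u v'
              + (if v' = v then s * (Real.pi - Real.pi / 4 * (m.dg v' : ℝ)) else 0) := by
          intro v'
          rw [Pi.add_apply, Pi.smul_apply, smul_eq_mul, Pi.single_apply]
          split_ifs <;> ring
        rw [Finset.sum_congr rfl (fun v' _ => h3 v'), Finset.sum_add_distrib,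
          Finset.sum_ite_eq' univ v, if_pos (Finset.mem_univ v)]
      rw [h2]
      simp only [h1]
    have hd : HasDerivAt (fun s : ℝ => En m G (u + s • Pi.single v 1) w)
        (∑ d, ((Real.arctan (Real.exp (u (m.vt d) + 0 * c d - w (m.fc d))) - Real.pi / 4)
          * (1 * c d)) + 1 * (Real.pi - Real.pi / 4 * (m.dg v : ℝ))) 0 := by
      have e : (fun s : ℝ => En m G (u + s • Pi.single v 1) w)
          = fun s : ℝ => ∑ d, (G (u (m.vt d) + s * c d - w (m.fc d)) + Real.pi / 12 * w (m.fc d))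
            + (∑ v', (Real.pi - Real.pi / 4 * (m.dg v' : ℝ)) * u v'
              + s * (Real.pi - Real.pi / 4 * (m.dg v : ℝ))) := funext hf
      rw [e]
      refine HasDerivAt.add ?_ (((hasDerivAt_id (0 : ℝ)).mul_const _).const_add _)
      refine HasDerivAt.fun_sum fun d _ => ?_
      have h1 : HasDerivAt (fun s : ℝ => u (m.vt d) + s * c d) (1 * c d) 0 :=
        ((hasDerivAt_id (0 : ℝ)).mul_const (c d)).const_add _
      have h2 : HasDerivAt (fun s : ℝ => u (m.vt d) + s * c d - w (m.fc d)) (1 * c d) 0 :=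
        h1.sub_const _
      have h3 : HasDerivAt (fun s : ℝ => G (u (m.vt d) + s * c d - w (m.fc d)))
          ((Real.arctan (Real.exp (u (m.vt d) + 0 * c d - w (m.fc d))) - Real.pi / 4)
            * (1 * c d)) 0 :=
        HasDerivAt.comp (0 : ℝ) (hGd _) h2
      exact h3.add_const _
    have hloc : IsLocalMin (fun s : ℝ => En m G (u + s • Pi.single v 1) w) 0 := by
      refine Filter.Eventually.of_forall fun s => ?_
      have h1 : En m G (u + (0 : ℝ) • Pi.single v 1) w = En m G u w := by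
        rw [zero_smul, add_zero]
      change En m G (u + (0 : ℝ) • Pi.single v 1) w ≤ En m G (u + s • Pi.single v 1) w
      rw [h1]
      refine hmin _ _ fun v' hv' => ?_
      have hne : v' ≠ v := by
        rintro rfl
        exact hv hv'
      rw [Pi.add_apply, Pi.smul_apply, smul_eq_mul, Pi.single_eq_of_ne hne, hu v' hv']
      ring
    have h0 := hloc.hasDerivAt_eq_zero hd
    have h1 : ∑ d, ((Real.arctan (Real.exp (u (m.vt d) + 0 * c d - w (m.fc d))) - Real.pi / 4)
          * (1 * c d))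
        = ∑ d with m.vt d = v,
          (Real.arctan (Real.exp (u v - w (m.fc d))) - Real.pi / 4) := by
      rw [Finset.sum_filter]
      refine Finset.sum_congr rfl fun d _ => ?_
      simp only [hc]
      split_ifs with h
      · rw [h, zero_mul, add_zero]
        ring
      · ring
    have h2 : (univ.filter (fun d => m.vt d = v)).card = m.dg v := rfl
    rw [h1, Finset.sum_sub_distrib, Finset.sum_const, h2, nsmul_eq_mul] at h0
    linarith

end

end QD63
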