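import Pool.Agent.Helper24.QD.Stmts2

set_option autoImplicit false

/-! Row FLG (typed by helper63): an invariant flag with virtually commutative layers. -/

namespace QD

open Module

theorem flg_reindex {F V : Type} [Field F] [AddCommGroup V] [Module F V] {κ : Type} {n : ℕ}
    (e : κ ≃ Fin n) (β : Module.Basis κ F V) (b : κ → ℕ) {G : Type} [Group G]
    (ρ : G →* Module.End F V) (N : Subgroup G)
    (h1 : ∀ g x y, b y < b x → β.repr (ρ g (β y)) x = 0)
    (h2 : ∀ g ∈ N, ∀ h ∈ N, ∀ x y, b x = b y →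
      β.repr (ρ (g * h) (β y)) x = β.repr (ρ (h * g) (β y)) x) :
    (∀ g x y, (b ∘ e.symm) y < (b ∘ e.symm) x → (β.reindex e).repr (ρ g ((β.reindex e) y)) x = 0) ∧
    (∀ g ∈ N, ∀ h ∈ N, ∀ x y, (b ∘ e.symm) x = (b ∘ e.symm) y →
      (β.reindex e).repr (ρ (g * h) ((β.reindex e) y)) x =
        (β.reindex e).repr (ρ (h * g) ((β.reindex e) y)) x) := by
  constructor
  · intro g x y hb
    rw [Basis.reindex_apply, Basis.repr_reindex_apply]
    exact h1 g _ _ hb
  · intro g hg h hh x y hb
    rw [Basis.reindex_apply, Basis.repr_reindex_apply, Basis.repr_reindex_apply]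
    exact h2 g hg h hh _ _ hb

/-- the quotient representation -/
noncomputable def flgQuot {F V : Type} [Field F] [AddCommGroup V] [Module F V] {G : Type} [Group G]
    (ρ : G →* Module.End F V) (U : Submodule F V) (hU : ∀ g, ∀ u ∈ U, ρ g u ∈ U) :
    G →* Module.End F (V ⧸ U) where
  toFun g := U.mapQ U (ρ g) (fun u hu => hU g u hu)
  map_one' := by
    apply Submodule.linearMap_qext
    ext v
    simp
  map_mul' g h := by
    apply Submodule.linearMap_qext
    ext v
    simp

theorem flgQuot_mk {F V : Type} [Field F] [AddCommGroup V] [Module F V] {G : Type} [Group G]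
    (ρ : G →* Module.End F V) (U : Submodule F V) (hU : ∀ g, ∀ u ∈ U, ρ g u ∈ U) (g : G) (v : V) :
    flgQuot ρ U hU g (U.mkQ v) = U.mkQ (ρ g v) := by
  simp [flgQuot]

theorem flg_step {F V : Type} [Field F] [IsAlgClosed F] [AddCommGroup V] [Module F V]
    [FiniteDimensional F V] {G : Type} [Group G] (ρ : G →* Module.End F V)
    (N₁ : Subgroup G) [N₁.Normal] [N₁.FiniteIndex]
    (U : Submodule F V) (hU : ∀ g, ∀ u ∈ U, ρ g u ∈ U)
    (hc : ∀ g ∈ N₁, ∀ h ∈ N₁, ∀ u ∈ U, ρ (g * h) u = ρ (h * g) u)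
    (ih : ∃ (N : Subgroup G) (n : ℕ) (β : Module.Basis (Fin n) F (V ⧸ U)) (b : Fin n → ℕ),
      N.FiniteIndex ∧
      (∀ g x y, b y < b x → β.repr (flgQuot ρ U hU g (β y)) x = 0) ∧
      (∀ g ∈ N, ∀ h ∈ N, ∀ x y, b x = b y →
        β.repr (flgQuot ρ U hU (g * h) (β y)) x = β.repr (flgQuot ρ U hU (h * g) (β y)) x)) :
    ∃ (N : Subgroup G) (n : ℕ) (β : Module.Basis (Fin n) F V) (b : Fin n → ℕ), N.FiniteIndex ∧
      (∀ g x y, b y < b x → β.repr (ρ g (β y)) x = 0) ∧
      (∀ g ∈ N, ∀ h ∈ N, ∀ x y, b x = b y →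
        β.repr (ρ (g * h) (β y)) x = β.repr (ρ (h * g) (β y)) x) := by
  obtain ⟨N₂, n₂, β₂, b₂, hN₂, h1, h2⟩ := ih
  have := hN₂
  set βU := Module.finBasis F U with hβU
  set β := Module.Basis.sumQuot βU β₂ with hβ
  set b : (Fin (Module.finrank F U)) ⊕ (Fin n₂) → ℕ := Sum.elim (fun _ => 0) (fun i => b₂ i + 1)
    with hb
  have hmk : ∀ j, U.mkQ (β (Sum.inr j)) = β₂ j := by
    intro j
    exact Module.Basis.sumQuot_inr βU β₂ j
  have hl : ∀ i, β (Sum.inl i) ∈ U := by
    intro i
    rw [hβ, Module.Basis.sumQuot_inl]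
    exact (βU i).2
  have hrepr : ∀ (v : V) (j : Fin n₂), β.repr v (Sum.inr j) = β₂.repr (U.mkQ v) j := by
    intro v j
    exact Module.Basis.sumQuot_repr_inr βU β₂ v j
  have hrepr0 : ∀ (v : V), v ∈ U → ∀ (j : Fin n₂), β.repr v (Sum.inr j) = 0 := by
    intro v hv j
    exact Module.Basis.sumQuot_repr_inr_of_mem βU β₂ v hv j
  have k1 : ∀ g x y, b y < b x → β.repr (ρ g (β y)) x = 0 := by
    intro g x y hxy
    rcases x with x | x
    · simp [hb] at hxy
    · rcases y with y | y
      · exact hrepr0 _ (hU g _ (hl y)) x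
      · have hlt : b₂ y < b₂ x := by simpa [hb] using hxy
        rw [hrepr, ← flgQuot_mk ρ U hU, hmk]
        exact h1 g x y hlt
  have k2 : ∀ g ∈ N₁ ⊓ N₂, ∀ h ∈ N₁ ⊓ N₂, ∀ x y, b x = b y →
      β.repr (ρ (g * h) (β y)) x = β.repr (ρ (h * g) (β y)) x := by
    intro g hg h hh x y hxy
    rcases y with y | y
    · rw [hc g hg.1 h hh.1 _ (hl y)]
    · rcases x with x | x
      · simp [hb] at hxy
      · have heq : b₂ x = b₂ y := by simpa [hb] using hxy
        rw [hrepr, hrepr, ← flgQuot_mk ρ U hU, ← flgQuot_mk ρ U hU, hmk]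
        exact h2 g hg.2 h hh.2 x y heq
  obtain ⟨r1, r2⟩ := flg_reindex finSumFinEquiv β b ρ (N₁ ⊓ N₂) k1 k2
  exact ⟨N₁ ⊓ N₂, _, β.reindex finSumFinEquiv, b ∘ finSumFinEquiv.symm, inferInstance, r1, r2⟩

theorem st_FLG (hEIG : ST_EIG) : ST_FLG := by
  intro F V G _ _ _ _ _ _ ρ G₁ hG₁ hsol
  suffices H : ∀ (d : ℕ) (V : Type) [AddCommGroup V] [Module F V] [FiniteDimensional F V]
      (ρ : G →* Module.End F V), Module.finrank F V = d →
      ∃ (N : Subgroup G) (n : ℕ) (β : Module.Basis (Fin n) F V) (b : Fin n → ℕ), N.FiniteIndex ∧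
        (∀ g x y, b y < b x → β.repr (ρ g (β y)) x = 0) ∧
        (∀ g ∈ N, ∀ h ∈ N, ∀ x y, b x = b y →
          β.repr (ρ (g * h) (β y)) x = β.repr (ρ (h * g) (β y)) x) from
    H _ V ρ rfl
  clear ρ
  intro d
  induction d using Nat.strong_induction_on with
  | _ d IH =>
    intro V _ _ _ ρ hd
    rcases subsingleton_or_nontrivial V with hV | hV
    · refine ⟨⊤, Module.finrank F V, Module.finBasis F V, fun _ => 0, inferInstance, ?_, ?_⟩
      · intro g x y hxy
        exact absurd hxy (lt_irrefl _)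
      · intro g _ h _ x y _
        rw [Subsingleton.elim (ρ (g * h) ((Module.finBasis F V) y))
          (ρ (h * g) ((Module.finBasis F V) y))]
    · obtain ⟨G₀, v, hG₀, hv, hev⟩ := hEIG F V G₁ (ρ.comp G₁.subtype) hsol
      have := hG₁
      have := hG₀
      set G₂ : Subgroup G := G₀.map G₁.subtype with hG₂
      have hG₂f : G₂.FiniteIndex := by
        constructor
        rw [hG₂, Subgroup.index_map_subtype]
        exact mul_ne_zero hG₀.index_ne_zero hG₁.index_ne_zero
      set N₁ : Subgroup G := G₂.normalCore with hN₁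
      have hle : N₁ ≤ G₂ := Subgroup.normalCore_le G₂
      set E : Set V := {w | ∀ g ∈ N₁, ∃ c : F, ρ g w = c • w} with hE
      set U : Submodule F V := Submodule.span F E with hUdef
      have hvE : v ∈ E := by
        intro g hg
        obtain ⟨g', hg', rfl⟩ := Subgroup.mem_map.mp (hle hg)
        exact hev g' hg'
      have hEinv : ∀ h : G, ∀ w ∈ E, ρ h w ∈ E := by
        intro h w hw g hg
        have hn : h⁻¹ * g * h ∈ N₁ := by
          have := (inferInstance : N₁.Normal).conj_mem g hg h⁻¹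
          rwa [inv_inv] at this
        obtain ⟨c, hcw⟩ := hw _ hn
        refine ⟨c, ?_⟩
        have e1 : g * h = h * (h⁻¹ * g * h) := by group
        calc ρ g (ρ h w) = ρ (g * h) w := by rw [map_mul]; rfl
          _ = ρ (h * (h⁻¹ * g * h)) w := by rw [← e1]
          _ = ρ h (ρ (h⁻¹ * g * h) w) := by rw [map_mul ρ h]; rfl
          _ = c • ρ h w := by rw [hcw, map_smul]
      have hU : ∀ g, ∀ u ∈ U, ρ g u ∈ U := by
        intro g u hu
        induction hu using Submodule.span_induction with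
        | mem x hx => exact Submodule.subset_span (hEinv g x hx)
        | zero => rw [map_zero]; exact U.zero_mem
        | add x y _ _ hx hy => rw [map_add]; exact U.add_mem hx hy
        | smul a x _ hx => rw [map_smul]; exact U.smul_mem a hx
      have hc : ∀ g ∈ N₁, ∀ h ∈ N₁, ∀ u ∈ U, ρ (g * h) u = ρ (h * g) u := by
        intro g hg h hh u hu
        induction hu using Submodule.span_induction with
        | mem x hx =>
          obtain ⟨c1, h1⟩ := hx g hg
          obtain ⟨c2, h2⟩ := hx h hh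
          calc ρ (g * h) x = ρ g (ρ h x) := by rw [map_mul]; rfl
            _ = c2 • (c1 • x) := by rw [h2, map_smul, h1]
            _ = c1 • (c2 • x) := smul_comm _ _ _
            _ = ρ h (ρ g x) := by rw [h1, map_smul, h2]
            _ = ρ (h * g) x := by rw [map_mul]; rfl
        | zero => rw [map_zero, map_zero]
        | add x y _ _ hx hy => rw [map_add, map_add, hx, hy]
        | smul a x _ hx => rw [map_smul, map_smul, hx]
      have hUne : U ≠ ⊥ := by
        intro h0
        have : v ∈ U := Submodule.subset_span hvE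
        rw [h0, Submodule.mem_bot] at this
        exact hv this
      have hfr : Module.finrank F (V ⧸ U) < d := by
        have h1 := Submodule.finrank_quotient_add_finrank U
        have h2 : 0 < Module.finrank F U := by
          rw [Nat.pos_iff_ne_zero]
          intro h0
          exact hUne (Submodule.finrank_eq_zero.mp h0)
        omega
      exact flg_step ρ N₁ U hU hc (IH _ hfr (V ⧸ U) (flgQuot ρ U hU) rfl)

end QD
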